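import Mathlib

open MeasureTheory ProbabilityTheory Filter Topology Set unitInterval

set_option autoImplicit false

namespace Pool.Agent.Results.MP_6cdded_pr.KWidthLimit

/-- A rooted tree with vertex set `α` in which each vertex has at most `k` children, given by its
root and its parent function: only the root has no parent, every vertex is reached from the root by
passing from parents to children, and each vertex is the parent of at most `k` vertices. -/
structure KaryTree (α : Type*) (k : ℕ) where
  /-- the root -/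
  root : α
  /-- the parent of a vertex (`none` for the root) -/
  parent : α → Option α
  parent_eq_none : ∀ x, parent x = none ↔ x = root
  reach : ∀ x, Relation.ReflTransGen (fun u v => parent v = some u) root x
  kary : ∀ x, {y | parent y = some x}.encard ≤ k

/-- `A` is a `k`-ary chain for the strict order `lt`: there is a `k`-ary rooted tree with vertex set
`A` such that `x < y` whenever `y` is a descendant of `x`. -/
def IsKaryChain {Q : Type*} (lt : Q → Q → Prop) (k : ℕ) (A : Set Q) : Prop :=
  ∃ T : KaryTree A k, ∀ x y : A,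
    Relation.TransGen (fun u v => T.parent v = some u) x y → lt x y

/-- The `k`-width: the least number of classes in a partition into `k`-ary chains (every class is
nonempty, since a tree has a root). -/
noncomputable def kwidth {Q : Type*} (lt : Q → Q → Prop) (k : ℕ) : ℕ :=
  sInf {m | ∃ f : Q → Fin m, ∀ c, IsKaryChain lt k {x | f x = c}}

/-- The left end of the interval with ends `x.1` and `x.2`. -/
noncomputable def left (x : I × I) : I := min x.1 x.2

/-- The right end of the interval with ends `x.1` and `x.2`. -/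
noncomputable def right (x : I × I) : I := max x.1 x.2

/-- The interval of `x` lies to the left of the interval of `y`. -/
def before (x y : I × I) : Prop := right x ≤ left y

/-- The expected `k`-width of the poset of `n` independent random intervals. -/
noncomputable def expWidth (k n : ℕ) : ℝ :=
  ∫ X : Fin n → I × I, (kwidth (fun i j => before (X i) (X j)) k : ℝ)

/-! ### Deterministic part -/

section Forest

variable {Q : Type*} (lt : Q → Q → Prop) (htr : ∀ x y z, lt x y → lt y z → lt x z)
  (par : Q → Option Q) (hlt : ∀ x y, par y = some x → lt x y)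
  (ℓ : Q → ℕ) (hℓ : ∀ x y, par y = some x → ℓ x < ℓ y)

include hℓ in
/-- Every vertex has a root ancestor. -/
lemma exists_rootFun : ∃ rt : Q → Q, (∀ x, par x = none → rt x = x) ∧
    (∀ x y, par y = some x → rt y = rt x) ∧ (∀ x, par (rt x) = none) ∧
    (∀ x, Relation.ReflTransGen (fun u v => par v = some u) (rt x) x) := by
  have key : ∀ n : ℕ, ∀ x, ℓ x ≤ n → ∃ r, par r = none ∧
      Relation.ReflTransGen (fun u v => par v = some u) r x := by
    intro n
    induction n with
    | zero =>
      intro x hx
      refine ⟨x, ?_, Relation.ReflTransGen.refl⟩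
      cases h : par x with
      | none => rfl
      | some y => have := hℓ y x h; omega
    | succ n ih =>
      intro x hx
      cases h : par x with
      | none => exact ⟨x, h, Relation.ReflTransGen.refl⟩
      | some y =>
        have h1 := hℓ y x h
        obtain ⟨r, hr, hr'⟩ := ih y (by omega)
        exact ⟨r, hr, hr'.tail h⟩
  have key' : ∀ x, ∃ r, par r = none ∧ Relation.ReflTransGen (fun u v => par v = some u) r x :=
    fun x => key (ℓ x) x le_rfl
  choose rt h1 h2 using key'
  have huniq : ∀ x r r', par r = none → par r' = none →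
      Relation.ReflTransGen (fun u v => par v = some u) r x →
      Relation.ReflTransGen (fun u v => par v = some u) r' x → r = r' := by
    intro x r r' hr hr' hx
    induction hx with
    | refl =>
      intro hx'
      rcases Relation.ReflTransGen.cases_tail hx' with h | ⟨z, _, hz⟩
      · exact h
      · rw [hr] at hz
        exact absurd hz (by simp)
    | @tail b c hb hbc ih =>
      intro hx'
      rcases Relation.ReflTransGen.cases_tail hx' with h | ⟨z, hz', hz⟩
      · rw [h, hr'] at hbc
        exact absurd hbc (by simp)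
      · rw [hbc] at hz
        have : b = z := Option.some.inj hz
        subst this
        exact ih hz'
  refine ⟨rt, ?_, ?_, h1, h2⟩
  · intro x hx
    exact huniq x _ _ (h1 x) hx (h2 x) Relation.ReflTransGen.refl
  · intro x y hxy
    exact huniq y _ _ (h1 y) (h1 x) (h2 y) ((h2 x).tail hxy)

include htr hlt hℓ in
/-- A forest with `m` roots gives a partition into `m` trees. -/
lemma partition_of_forest (k m : ℕ) (hk : ∀ x, {y | par y = some x}.encard ≤ k)
    (e : {x // par x = none} ≃ Fin m) :
    ∃ f : Q → Fin m, ∀ c, IsKaryChain lt k {x | f x = c} := by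
  obtain ⟨rt, h1, h2, h3, h4⟩ := exists_rootFun par ℓ hℓ
  refine ⟨fun x => e ⟨rt x, h3 x⟩, fun c => ?_⟩
  have hmem : ∀ x, x ∈ {x | e ⟨rt x, h3 x⟩ = c} ↔ rt x = (e.symm c).1 := by
    intro x
    rw [Set.mem_ofPred_eq]
    constructor
    · intro h
      rw [← h]
      simp
    · intro h
      rw [← e.apply_symm_apply c]
      congr 1
      exact Subtype.ext h
  set A : Set Q := {x | e ⟨rt x, h3 x⟩ = c} with hA
  have hroot : (e.symm c).1 ∈ A := (hmem _).2 (h1 _ (e.symm c).2)
  have hpar : ∀ x y, par y = some x → (x ∈ A ↔ y ∈ A) := by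
    intro x y h
    rw [hmem, hmem, h2 x y h]
  -- the parent function on the class
  let par' : A → Option A := fun y =>
    match h : par y.1 with
    | none => none
    | some x => some ⟨x, (hpar x y.1 h).2 y.2⟩
  have hpar'_none : ∀ y : A, par' y = none ↔ par y.1 = none := by
    intro y
    simp only [par']
    split <;> simp_all
  have hpar'_some : ∀ x y : A, par' y = some x ↔ par y.1 = some x.1 := by
    intro x y
    simp only [par']
    split
    · simp_all
    · rename_i z hz
      constructor
      · intro h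
        have h7 : z = x.1 := congrArg Subtype.val (Option.some.inj h)
        rw [← h7]
        exact hz
      · intro h
        have h7 : some z = some x.1 := hz.symm.trans h
        exact congrArg some (Subtype.ext (Option.some.inj h7))
  have hreach : ∀ (x : Q) (hx : x ∈ A), Relation.ReflTransGen
      (fun u v => par' v = some u) (⟨_, hroot⟩ : A) ⟨x, hx⟩ := by
    intro x hx
    have h5 := h4 x
    have h6 : rt x = (e.symm c).1 := (hmem x).1 hx
    rw [h6] at h5
    clear h6
    induction h5 with
    | refl => exact Relation.ReflTransGen.refl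
    | @tail b d hb hbd ih =>
      have hbA : b ∈ A := (hpar b d hbd).2 hx
      exact (ih hbA).tail ((hpar'_some ⟨b, hbA⟩ ⟨d, hx⟩).2 hbd)
  refine ⟨⟨⟨_, hroot⟩, par', ?_, fun x => hreach x.1 x.2, ?_⟩, ?_⟩
  · intro x
    rw [hpar'_none]
    constructor
    · intro h
      have h5 := h1 x.1 h
      have h6 := (hmem x.1).1 x.2
      exact Subtype.ext (by rw [← h5, h6])
    · rintro rfl
      exact (e.symm c).2
  · intro x
    refine le_trans ?_ (hk x.1)
    have : {y : A | par' y = some x} = Subtype.val ⁻¹' {y | par y = some x.1} := by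
      ext y
      exact hpar'_some x y
    rw [this]
    exact Set.encard_preimage_val_le_encard_right _ _
  · intro x y hxy
    change Relation.TransGen (fun u v => par' v = some u) x y at hxy
    induction hxy with
    | single h => exact hlt _ _ ((hpar'_some _ _).1 h)
    | tail _ h ih => exact htr _ _ _ ih (hlt _ _ ((hpar'_some _ _).1 h))

include htr hlt hℓ in
lemma kwidth_le_of_forest (k m : ℕ) (hk : ∀ x, {y | par y = some x}.encard ≤ k)
    (e : {x // par x = none} ≃ Fin m) : kwidth lt k ≤ m :=
  Nat.sInf_le (partition_of_forest lt htr par hlt ℓ hℓ k m hk e)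

end Forest

section Lower

variable {Q : Type*} [Fintype Q] (lt : Q → Q → Prop)

/-- Singletons form a partition into chains; in particular the infimum is attained. -/
lemma exists_min_partition (htr : ∀ x y z, lt x y → lt y z → lt x z) (k : ℕ) :
    ∃ f : Q → Fin (kwidth lt k), ∀ c, IsKaryChain lt k {x | f x = c} := by
  have hne : {m | ∃ f : Q → Fin m, ∀ c, IsKaryChain lt k {x | f x = c}}.Nonempty := by
    refine ⟨Fintype.card Q, partition_of_forest lt htr (fun _ => none) (by simp) (fun _ => 0)
      (by simp) k _ (by simp) ?_⟩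
    exact (Equiv.subtypeUnivEquiv (fun _ => rfl)).trans (Fintype.equivFin Q)
  exact Nat.sInf_mem hne

lemma kwidth_le_card (htr : ∀ x y z, lt x y → lt y z → lt x z) (k : ℕ) :
    kwidth lt k ≤ Fintype.card Q := by
  refine kwidth_le_of_forest lt htr (fun _ => none) (by simp) (fun _ => 0)
      (by simp) k _ (by simp) ?_
  exact (Equiv.subtypeUnivEquiv (fun _ => rfl)).trans (Fintype.equivFin Q)

/-- From a partition into chains one gets a parent function. -/
lemma exists_parent (htr : ∀ x y z, lt x y → lt y z → lt x z) (k : ℕ) :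
    ∃ par : Q → Option Q, (∀ x y, par y = some x → lt x y) ∧
      (∀ x, {y | par y = some x}.encard ≤ k) ∧
      {x | par x = none}.encard ≤ kwidth lt k := by
  obtain ⟨f, hf⟩ := exists_min_partition lt htr k
  choose T hT using hf
  let par : Q → Option Q := fun y => ((T (f y)).parent ⟨y, rfl⟩).map Subtype.val
  have hpar : ∀ x y, par y = some x → ∃ h : f x = f y,
      (T (f y)).parent ⟨y, rfl⟩ = some ⟨x, h⟩ := by
    intro x y h
    simp only [par, Option.map_eq_some_iff] at h
    obtain ⟨⟨z, hz⟩, h1, rfl⟩ := h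
    exact ⟨hz, h1⟩
  refine ⟨par, ?_, ?_, ?_⟩
  · intro x y h
    obtain ⟨h1, h2⟩ := hpar x y h
    exact hT (f y) ⟨x, h1⟩ ⟨y, rfl⟩ (Relation.TransGen.single h2)
  · intro x
    refine le_trans ?_ ((T (f x)).kary ⟨x, rfl⟩)
    have : {y | par y = some x} ⊆ Subtype.val ''
        {y : {z | f z = f x} | (T (f x)).parent y = some ⟨x, rfl⟩} := by
      intro y hy
      obtain ⟨h1, h2⟩ := hpar x y hy
      refine ⟨⟨y, h1.symm⟩, ?_, rfl⟩
      rw [Set.mem_ofPred_eq]
      have key : ∀ (c : Fin (kwidth lt k)) (hy : f y = c) (hx : f x = c) (hc : f y = c),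
          (T (f y)).parent ⟨y, rfl⟩ = some ⟨x, h1⟩ → (T c).parent ⟨y, hy⟩ = some ⟨x, hx⟩ := by
        intro c hy hx hc h
        subst hc
        exact h
      exact key (f x) h1.symm rfl h1.symm h2
    exact (Set.encard_le_encard this).trans (Set.encard_image_le _ _)
  · have hinj : Set.InjOn f {x | par x = none} := by
      intro x hx y hy hxy
      rw [Set.mem_ofPred_eq] at hx hy
      simp only [par, Option.map_eq_none_iff] at hx hy
      rw [(T (f x)).parent_eq_none] at hx
      rw [(T (f y)).parent_eq_none] at hy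
      have key : ∀ (c : Fin (kwidth lt k)) (hx' : f x = c) (hy' : f y = c),
          (⟨x, hx'⟩ : {z | f z = c}) = (T c).root → (⟨y, hy'⟩ : {z | f z = c}) = (T c).root → x = y := by
        intro c hx' hy' h1 h2
        have := h1.trans h2.symm
        exact congrArg Subtype.val this
      have key2 : ∀ (c : Fin (kwidth lt k)) (hc : f y = c),
          (⟨y, rfl⟩ : {z | f z = f y}) = (T (f y)).root → (⟨y, hc⟩ : {z | f z = c}) = (T c).root := by
        intro c hc h
        subst hc
        exact h
      exact key (f x) rfl hxy.symm hx (key2 (f x) hxy.symm hy)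
    rw [← hinj.encard_image]
    refine (Set.encard_le_card (s := f '' {x | par x = none})).trans ?_
    simp

end Lower

/-! ### The `k`-width of a finite family of intervals -/

section Counting

variable {n : ℕ} (a b : Fin n → I)

/-- Number of left ends at most `t`. -/
noncomputable def cA (t : I) : ℕ := (Finset.univ.filter fun i => a i ≤ t).card

lemma cA_le (t : I) : cA a t ≤ n := by
  unfold cA
  exact (Finset.card_le_univ _).trans (by simp)

lemma lt_trans' (hab : ∀ i, a i ≤ b i) : ∀ x y z : Fin n, b x ≤ a y → b y ≤ a z → b x ≤ a z :=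
  fun _ y _ h1 h2 => (h1.trans (hab y)).trans h2

/-- Lower bound for the `k`-width. -/
lemma count_le (hab : ∀ i, a i ≤ b i) (k : ℕ) (t : I) :
    cA a t ≤ kwidth (fun i j => b i ≤ a j) k + k * cA b t := by
  classical
  obtain ⟨par, h1, h2, h3⟩ := exists_parent (fun i j => b i ≤ a j) (lt_trans' a b hab) k
  have hsub : (Finset.univ.filter fun i => a i ≤ t) ⊆
      (Finset.univ.filter fun i => par i = none) ∪
        (Finset.univ.filter fun p => b p ≤ t).biUnion
          (fun p => Finset.univ.filter fun i => par i = some p) := by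
    intro i hi
    rw [Finset.mem_filter] at hi
    rw [Finset.mem_union, Finset.mem_filter, Finset.mem_biUnion]
    cases h : par i with
    | none => exact Or.inl ⟨Finset.mem_univ _, rfl⟩
    | some p =>
      refine Or.inr ⟨p, ?_, ?_⟩
      · rw [Finset.mem_filter]
        exact ⟨Finset.mem_univ _, (h1 p i h).trans hi.2⟩
      · rw [Finset.mem_filter]
        exact ⟨Finset.mem_univ _, h⟩
  have hc : ∀ S : Finset (Fin n), ∀ m : ℕ, (S : Set (Fin n)).encard ≤ m → S.card ≤ m := by
    intro S m h
    rw [Set.encard_coe_eq_coe_finsetCard] at h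
    exact_mod_cast h
  have h4 : (Finset.univ.filter fun i => par i = none).card ≤ kwidth (fun i j => b i ≤ a j) k := by
    apply hc
    simpa using h3
  have h5 : ((Finset.univ.filter fun p => b p ≤ t).biUnion
          (fun p => Finset.univ.filter fun i => par i = some p)).card ≤
          (Finset.univ.filter fun p => b p ≤ t).card * k := by
    refine Finset.card_biUnion_le_card_mul _ _ _ ?_
    intro p _
    apply hc
    simpa using h2 p
  calc cA a t ≤ _ := Finset.card_le_card hsub
    _ ≤ _ := Finset.card_union_le _ _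
    _ ≤ kwidth (fun i j => b i ≤ a j) k + (Finset.univ.filter fun p => b p ≤ t).card * k :=
        add_le_add h4 h5
    _ = _ := by rw [mul_comm]; rfl

/-- Upper bound for the `k`-width. -/
lemma kwidth_le_sup (hab : ∀ i, a i < b i) (k : ℕ) :
    kwidth (fun i j => b i ≤ a j) k ≤
      Finset.univ.sup (fun v => cA a (a v) - k * cA b (a v)) := by
  classical
  set m := Finset.univ.sup (fun v => cA a (a v) - k * cA b (a v)) with hm
  have hmn : m ≤ n := by
    rw [hm]
    refine Finset.sup_le fun v _ => ?_
    exact (Nat.sub_le _ _).trans (cA_le a _)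
  let sa : Equiv.Perm (Fin n) := Tuple.sort a
  let sb : Equiv.Perm (Fin n) := Tuple.sort b
  have hsa : Monotone (a ∘ sa) := Tuple.monotone_sort a
  have hsb : Monotone (b ∘ sb) := Tuple.monotone_sort b
  let par : Fin n → Option (Fin n) := fun v =>
    if (sa.symm v).1 < m then none
    else some (sb ⟨((sa.symm v).1 - m) / k,
      ((Nat.div_le_self _ _).trans (Nat.sub_le _ _)).trans_lt (sa.symm v).2⟩)
  -- the counts
  have hA : ∀ v, (sa.symm v).1 + 1 ≤ cA a (a v) := by
    intro v
    have : ((Finset.univ.filter fun j : Fin n => j ≤ sa.symm v).map sa.toEmbedding) ⊆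
        (Finset.univ.filter fun i => a i ≤ a v) := by
      intro i hi
      rw [Finset.mem_map] at hi
      obtain ⟨j, hj, rfl⟩ := hi
      rw [Finset.mem_filter] at hj ⊢
      refine ⟨Finset.mem_univ _, ?_⟩
      have := hsa hj.2
      simpa using this
    have h2 := Finset.card_le_card this
    rw [Finset.card_map] at h2
    have h3 : (Finset.univ.filter fun j : Fin n => j ≤ sa.symm v) = Finset.Iic (sa.symm v) := by
      ext j
      simp
    rw [h3, Fin.card_Iic] at h2
    exact h2
  have hB : ∀ (t : I) (q : Fin n), t < b (sb q) → cA b t ≤ q.1 := by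
    intro t q hq
    have : (Finset.univ.filter fun i => b i ≤ t) ⊆
        ((Finset.univ.filter fun j : Fin n => j < q).map sb.toEmbedding) := by
      intro i hi
      rw [Finset.mem_filter] at hi
      rw [Finset.mem_map]
      refine ⟨sb.symm i, ?_, by simp⟩
      rw [Finset.mem_filter]
      refine ⟨Finset.mem_univ _, ?_⟩
      by_contra hcon
      push Not at hcon
      have h2 := hsb hcon
      simp only [Function.comp_apply, Equiv.apply_symm_apply] at h2
      exact absurd (hq.trans_le (h2.trans hi.2)) (lt_irrefl _)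
    have h2 := Finset.card_le_card this
    rw [Finset.card_map] at h2
    have h3 : (Finset.univ.filter fun j : Fin n => j < q) = Finset.Iio q := by
      ext j
      simp
    rw [h3, Fin.card_Iio] at h2
    exact h2
  have hsup : ∀ v, cA a (a v) - k * cA b (a v) ≤ m := fun v =>
    Finset.le_sup (f := fun v => cA a (a v) - k * cA b (a v)) (Finset.mem_univ v)
  have hpar : ∀ x y, par y = some x → m ≤ (sa.symm y).1 ∧
      (sb.symm x).1 = ((sa.symm y).1 - m) / k := by
    intro x y h
    simp only [par] at h
    split_ifs at h with h1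
    push Not at h1
    refine ⟨h1, ?_⟩
    have h2 := Option.some.inj h
    rw [← h2]
    simp
  have hlt : ∀ x y, par y = some x → b x ≤ a y := by
    intro x y h
    obtain ⟨h1, h2⟩ := hpar x y h
    by_contra hcon
    push Not at hcon
    have h3 := hB (a y) (sb.symm x) (by simpa using hcon)
    have h4 := hA y
    have h5 := hsup y
    rw [h2] at h3
    have h6 : k * cA b (a y) ≤ (sa.symm y).1 - m :=
      (Nat.mul_le_mul_left k h3).trans (Nat.mul_div_le _ _)
    omega
  have hk : ∀ x, {y | par y = some x}.encard ≤ k := by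
    intro x
    have hinj : Set.InjOn (fun y => (sa.symm y).1) {y | par y = some x} := by
      intro y _ y' _ h
      exact sa.symm.injective (Fin.ext h)
    have hmaps : Set.MapsTo (fun y => (sa.symm y).1) {y | par y = some x}
        (Set.Ico (m + k * (sb.symm x).1) (m + k * (sb.symm x).1 + k)) := by
      intro y hy
      obtain ⟨h1, h2⟩ := hpar x y hy
      rcases Nat.eq_zero_or_pos k with hk0 | hk0
      · exfalso
        have h5 := hsup y
        have h4 := hA y
        rw [hk0] at h5
        omega
      · have h3 := Nat.div_add_mod ((sa.symm y).1 - m) k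
        have h4 := Nat.mod_lt ((sa.symm y).1 - m) hk0
        rw [← h2] at h3
        refine ⟨?_, ?_⟩
        · change m + k * (sb.symm x).1 ≤ (sa.symm y).1
          omega
        · change (sa.symm y).1 < m + k * (sb.symm x).1 + k
          omega
    refine (Set.encard_le_encard_of_injOn hmaps hinj).trans ?_
    rw [← Finset.coe_Ico, Set.encard_coe_eq_coe_finsetCard, Nat.card_Ico]
    simp
  refine kwidth_le_of_forest (fun i j => b i ≤ a j) (lt_trans' a b (fun i => (hab i).le)) par hlt
    (fun v => (Finset.univ.filter fun i => a i < a v).card) ?_ k m hk ?_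
  · intro x y h
    have h1 := hlt x y h
    apply Finset.card_lt_card
    rw [Finset.ssubset_iff_of_subset]
    · refine ⟨x, ?_, ?_⟩
      · rw [Finset.mem_filter]
        exact ⟨Finset.mem_univ _, (hab x).trans_le h1⟩
      · rw [Finset.mem_filter]
        exact fun h => lt_irrefl _ h.2
    · intro i hi
      rw [Finset.mem_filter] at hi ⊢
      exact ⟨Finset.mem_univ _, hi.2.trans ((hab x).trans_le h1)⟩
  · have e1 : {x // par x = none} ≃ {j : Fin n // j.1 < m} := by
      refine Equiv.subtypeEquiv sa.symm ?_
      intro x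
      simp only [par]
      split_ifs with h
      · simp [h]
      · simp only [false_iff]
        exact h
    exact e1.trans (Fin.castLEOrderIso hmn).toEquiv.symm

end Counting

/-! ### Random intervals -/

lemma measurable_left : Measurable left := measurable_fst.min measurable_snd

lemma measurable_right : Measurable right := measurable_fst.max measurable_snd

/-- Indicator that the left end is at most `s`. -/
noncomputable def gA (s : ℝ) (x : I × I) : ℝ := if (left x : ℝ) ≤ s then 1 else 0

/-- Indicator that the right end is at most `s`. -/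
noncomputable def gB (s : ℝ) (x : I × I) : ℝ := if (right x : ℝ) ≤ s then 1 else 0

lemma measurableSet_A (s : ℝ) : MeasurableSet {x : I × I | (left x : ℝ) ≤ s} :=
  measurableSet_le (measurable_subtype_coe.comp measurable_left) measurable_const

lemma measurableSet_B (s : ℝ) : MeasurableSet {x : I × I | (right x : ℝ) ≤ s} :=
  measurableSet_le (measurable_subtype_coe.comp measurable_right) measurable_const

lemma gA_eq (s : ℝ) : gA s = Set.indicator {x : I × I | (left x : ℝ) ≤ s} (fun _ => (1 : ℝ)) := by
  funext x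
  rfl

lemma gB_eq (s : ℝ) : gB s = Set.indicator {x : I × I | (right x : ℝ) ≤ s} (fun _ => (1 : ℝ)) := by
  funext x
  rfl

lemma measurable_gA (s : ℝ) : Measurable (gA s) := by
  rw [gA_eq]
  exact measurable_const.indicator (measurableSet_A s)

lemma measurable_gB (s : ℝ) : Measurable (gB s) := by
  rw [gB_eq]
  exact measurable_const.indicator (measurableSet_B s)

lemma integral_gB {s : ℝ} (h0 : 0 ≤ s) (h1 : s ≤ 1) : ∫ x, gB s x = s ^ 2 := by
  rw [gB_eq, integral_indicator (measurableSet_B s), setIntegral_const]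
  have : {x : I × I | (right x : ℝ) ≤ s} = Set.Iic (⟨s, h0, h1⟩ : I) ×ˢ Set.Iic (⟨s, h0, h1⟩ : I) := by
    ext x
    simp only [Set.mem_ofPred_eq, Set.mem_prod, Set.mem_Iic, right]
    rw [← max_le_iff]
    rfl
  rw [this, Measure.real, Measure.volume_eq_prod, Measure.prod_prod, unitInterval.volume_Iic]
  simp only [ENNReal.toReal_mul, ENNReal.toReal_ofReal h0, smul_eq_mul, mul_one]
  ring

lemma integral_gA {s : ℝ} (h0 : 0 ≤ s) (h1 : s ≤ 1) : ∫ x, gA s x = 2 * s - s ^ 2 := by
  rw [gA_eq, integral_indicator (measurableSet_A s), setIntegral_const]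
  have : {x : I × I | (left x : ℝ) ≤ s}ᶜ =
      Set.Ioi (⟨s, h0, h1⟩ : I) ×ˢ Set.Ioi (⟨s, h0, h1⟩ : I) := by
    ext x
    simp only [Set.mem_compl_iff, Set.mem_ofPred_eq, Set.mem_prod, Set.mem_Ioi, left, not_le]
    rw [← lt_min_iff]
    rfl
  have h2 := probReal_compl_eq_one_sub (μ := (volume : Measure (I × I))) (measurableSet_A s)
  rw [this, Measure.real, Measure.volume_eq_prod, Measure.prod_prod, unitInterval.volume_Ioi] at h2
  simp only [ENNReal.toReal_mul, ENNReal.toReal_ofReal (sub_nonneg.2 h1)] at h2
  rw [← Measure.volume_eq_prod] at h2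
  rw [smul_eq_mul, mul_one]
  linarith

lemma integral_gA_of_one_le {s : ℝ} (h1 : 1 ≤ s) : ∫ x, gA s x = 1 := by
  rw [gA_eq, integral_indicator (measurableSet_A s), setIntegral_const]
  have : {x : I × I | (left x : ℝ) ≤ s} = Set.univ := by
    ext x
    simp only [Set.mem_ofPred_eq, Set.mem_univ, iff_true]
    exact (left x).2.2.trans h1
  rw [this]
  simp

lemma gA_mem (s : ℝ) (x : I × I) : 0 ≤ gA s x ∧ gA s x ≤ 1 := by
  unfold gA
  split_ifs <;> norm_num

lemma gB_mem (s : ℝ) (x : I × I) : 0 ≤ gB s x ∧ gB s x ≤ 1 := by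
  unfold gB
  split_ifs <;> norm_num

lemma integrable_gA (s : ℝ) : Integrable (gA s) :=
  Integrable.of_bound (C := 1) (measurable_gA s).aestronglyMeasurable
    (Filter.Eventually.of_forall fun x => by
      rw [Real.norm_eq_abs, abs_of_nonneg (gA_mem s x).1]; exact (gA_mem s x).2)

lemma integrable_gB (s : ℝ) : Integrable (gB s) :=
  Integrable.of_bound (C := 1) (measurable_gB s).aestronglyMeasurable
    (Filter.Eventually.of_forall fun x => by
      rw [Real.norm_eq_abs, abs_of_nonneg (gB_mem s x).1]; exact (gB_mem s x).2)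

lemma cA_left {n : ℕ} (X : Fin n → I × I) (t : I) :
    (cA (fun i => left (X i)) t : ℝ) = ∑ i, gA t (X i) := by
  unfold cA gA
  rw [Finset.card_filter]
  push_cast
  refine Finset.sum_congr rfl fun i _ => ?_
  exact if_congr (by rfl) rfl rfl

lemma cA_right {n : ℕ} (X : Fin n → I × I) (t : I) :
    (cA (fun i => right (X i)) t : ℝ) = ∑ i, gB t (X i) := by
  unfold cA gB
  rw [Finset.card_filter]
  push_cast
  refine Finset.sum_congr rfl fun i _ => ?_
  exact if_congr (by rfl) rfl rfl

lemma left_le_right (x : I × I) : left x ≤ right x := min_le_max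

/-- The `k`-width of the sampled poset, as a real number. -/
noncomputable def KW (k n : ℕ) (X : Fin n → I × I) : ℝ :=
  (kwidth (fun i j => before (X i) (X j)) k : ℝ)

lemma KW_le (k n : ℕ) (X : Fin n → I × I) : KW k n X ≤ n := by
  unfold KW
  have := kwidth_le_card (fun i j => before (X i) (X j))
    (lt_trans' (fun i => left (X i)) (fun i => right (X i)) fun i => left_le_right _) k
  rw [Fintype.card_fin] at this
  exact_mod_cast this

lemma measurable_KW (k n : ℕ) : Measurable (KW k n) := by
  classical
  have h1 : Measurable fun (X : Fin n → I × I) (i j : Fin n) => decide (before (X i) (X j)) := by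
    refine measurable_pi_lambda _ fun i => measurable_pi_lambda _ fun j => ?_
    refine measurable_to_bool ?_
    have : (fun X : Fin n → I × I => decide (before (X i) (X j))) ⁻¹' {true} =
        {X | right (X i) ≤ left (X j)} := by
      ext X
      exact decide_eq_true_iff
    rw [this]
    exact measurableSet_le (measurable_right.comp (measurable_pi_apply i))
      (measurable_left.comp (measurable_pi_apply j))
  have h2 : Measurable fun R : Fin n → Fin n → Bool => (kwidth (fun i j => R i j = true) k : ℝ) :=
    measurable_of_countable _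
  have h3 := h2.comp h1
  have : KW k n = (fun R : Fin n → Fin n → Bool => (kwidth (fun i j => R i j = true) k : ℝ)) ∘
      fun (X : Fin n → I × I) (i j : Fin n) => decide (before (X i) (X j)) := by
    funext X
    simp [KW]
  rw [this]
  exact h3

lemma integrable_KW (k n : ℕ) : Integrable (KW k n) :=
  Integrable.of_bound (C := n) (measurable_KW k n).aestronglyMeasurable
    (Filter.Eventually.of_forall fun X => by
      rw [Real.norm_eq_abs, abs_of_nonneg (Nat.cast_nonneg _)]; exact KW_le k n X)

/-- The function whose sample sums bound the `k`-width. -/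
noncomputable def g (k : ℕ) (s t : ℝ) (x : I × I) : ℝ := gA s x - k * gB t x

lemma measurable_g (k : ℕ) (s t : ℝ) : Measurable (g k s t) :=
  (measurable_gA s).sub ((measurable_gB t).const_mul _)

lemma g_bound (k : ℕ) (s t : ℝ) (x : I × I) : |g k s t x| ≤ k + 1 := by
  have h1 := gA_mem s x
  have h2 := gB_mem t x
  have hk : (0 : ℝ) ≤ k := Nat.cast_nonneg k
  have h3 : (k : ℝ) * gB t x ≤ k := by nlinarith
  have h4 : 0 ≤ (k : ℝ) * gB t x := by nlinarith
  unfold g
  rw [abs_le]
  constructor <;> linarith

lemma integrable_g (k : ℕ) (s t : ℝ) : Integrable (g k s t) :=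
  (integrable_gA s).sub ((integrable_gB t).const_mul _)

lemma integral_g (k : ℕ) (s t : ℝ) : ∫ x, g k s t x = (∫ x, gA s x) - k * ∫ x, gB t x := by
  unfold g
  rw [integral_sub (integrable_gA s) ((integrable_gB t).const_mul _), integral_const_mul]

/-- sample sum -/
noncomputable def Z (k n : ℕ) (s t : ℝ) (X : Fin n → I × I) : ℝ := ∑ i, g k s t (X i)

lemma measurable_Z (k n : ℕ) (s t : ℝ) : Measurable (Z k n s t) :=
  Finset.measurable_sum _ fun i _ => (measurable_g k s t).comp (measurable_pi_apply i)

lemma Z_bound (k n : ℕ) (s t : ℝ) (X : Fin n → I × I) : |Z k n s t X| ≤ n * (k + 1) := by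
  unfold Z
  calc |∑ i, g k s t (X i)| ≤ ∑ i, |g k s t (X i)| := Finset.abs_sum_le_sum_abs _ _
    _ ≤ ∑ _i : Fin n, ((k : ℝ) + 1) := Finset.sum_le_sum fun i _ => g_bound k s t (X i)
    _ = _ := by rw [Finset.sum_const, Finset.card_univ, Fintype.card_fin, nsmul_eq_mul]

lemma integrable_Z (k n : ℕ) (s t : ℝ) : Integrable (Z k n s t) :=
  Integrable.of_bound (C := n * (k + 1)) (measurable_Z k n s t).aestronglyMeasurable
    (Filter.Eventually.of_forall fun X => by
      rw [Real.norm_eq_abs]; exact Z_bound k n s t X)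

lemma integral_Z (k n : ℕ) (s t : ℝ) : ∫ X, Z k n s t X = n * ∫ x, g k s t x := by
  unfold Z
  rw [integral_finsetSum _ fun i _ => ?_]
  · have : ∀ i : Fin n, ∫ X : Fin n → I × I, g k s t (X i) = ∫ x, g k s t x := fun i =>
      integral_comp_eval (μ := fun _ : Fin n => (volume : Measure (I × I)))
        (measurable_g k s t).aestronglyMeasurable
    rw [Finset.sum_congr rfl fun i _ => this i]
    simp
  · exact Integrable.of_bound (C := k + 1)
      ((measurable_g k s t).comp (measurable_pi_apply i)).aestronglyMeasurable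
      (Filter.Eventually.of_forall fun X => by
        rw [Real.norm_eq_abs]; exact g_bound k s t (X i))

lemma variance_Z (k n : ℕ) (s t : ℝ) :
    ∫ X, (Z k n s t X - n * ∫ x, g k s t x) ^ 2 ≤ n * (k + 1) ^ 2 := by
  have hmem : MemLp (g k s t) 2 (volume : Measure (I × I)) :=
    MemLp.of_bound (measurable_g k s t).aestronglyMeasurable ((k : ℝ) + 1)
      (Filter.Eventually.of_forall fun x => by
        rw [Real.norm_eq_abs]; exact g_bound k s t x)
  have h1 := variance_sum_pi (μ := fun _ : Fin n => (volume : Measure (I × I)))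
    (X := fun _ => g k s t) (fun _ => hmem)
  have h2 : Var[∑ i, fun X : Fin n → I × I => g k s t (X i);
      Measure.pi fun _ => (volume : Measure (I × I))] =
      ∫ X, (Z k n s t X - n * ∫ x, g k s t x) ^ 2 := by
    have hZ : (∑ i, fun X : Fin n → I × I => g k s t (X i)) = Z k n s t := by
      funext X
      simp [Z]
    rw [hZ]
    have hvol : (Measure.pi fun _ : Fin n => (volume : Measure (I × I))) = volume := rfl
    rw [hvol, variance_eq_integral (measurable_Z k n s t).aemeasurable, integral_Z]
  rw [← h2, h1, Finset.sum_const, Finset.card_univ, Fintype.card_fin, nsmul_eq_mul]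
  refine mul_le_mul_of_nonneg_left ?_ (Nat.cast_nonneg _)
  refine (variance_le_expectation_sq (measurable_g k s t).aestronglyMeasurable).trans ?_
  calc ∫ x, ((g k s t) ^ 2) x ≤ ∫ _x : I × I, ((k : ℝ) + 1) ^ 2 := by
        refine integral_mono ?_ (integrable_const _) ?_
        · exact hmem.integrable_sq
        · intro x
          have := g_bound k s t x
          simp only [Pi.pow_apply]
          exact sq_le_sq' (by rw [abs_le] at this; linarith [this.1]) (le_trans (le_abs_self _) this)
    _ = _ := by simp

lemma integral_abs_Z (k n : ℕ) (hn : 0 < n) (s t ε : ℝ) (hε : 0 < ε) :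
    ∫ X, |Z k n s t X - n * ∫ x, g k s t x| ≤ ε * n + (k + 1) ^ 2 / ε := by
  have hn' : (0 : ℝ) < n := by exact_mod_cast hn
  have hmeas : Measurable fun X => Z k n s t X - n * ∫ x, g k s t x :=
    (measurable_Z k n s t).sub measurable_const
  have hb : ∀ X, |Z k n s t X - n * ∫ x, g k s t x| ≤ n * (k + 1) + |n * ∫ x, g k s t x| := by
    intro X
    exact (abs_sub _ _).trans (by gcongr; exact Z_bound k n s t X)
  have hint1 : Integrable fun X => |Z k n s t X - n * ∫ x, g k s t x| :=
    (Integrable.of_bound (C := n * (k + 1) + |n * ∫ x, g k s t x|) hmeas.aestronglyMeasurable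
      (Filter.Eventually.of_forall fun X => by rw [Real.norm_eq_abs]; exact hb X)).abs
  have hint2 : Integrable fun X => (Z k n s t X - n * ∫ x, g k s t x) ^ 2 := by
    refine Integrable.of_bound (C := (n * (k + 1) + |n * ∫ x, g k s t x|) ^ 2)
      (hmeas.pow_const 2).aestronglyMeasurable (Filter.Eventually.of_forall fun X => ?_)
    rw [Real.norm_eq_abs, abs_pow]
    exact pow_le_pow_left₀ (abs_nonneg _) (hb X) 2
  have hpt : ∀ X, |Z k n s t X - n * ∫ x, g k s t x| ≤
      ε * n + (ε * n)⁻¹ * (Z k n s t X - n * ∫ x, g k s t x) ^ 2 := by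
    intro X
    set y := Z k n s t X - n * ∫ x, g k s t x with hy
    have hc : 0 < ε * n := by positivity
    rw [← sq_abs y]
    have h3 : 0 ≤ |y| := abs_nonneg y
    rcases le_total |y| (ε * n) with h | h
    · have : 0 ≤ (ε * n)⁻¹ * |y| ^ 2 := by positivity
      linarith
    · have : |y| ≤ (ε * n)⁻¹ * |y| ^ 2 := by
        rw [inv_mul_eq_div, le_div_iff₀ hc]
        nlinarith
      linarith
  calc ∫ X, |Z k n s t X - n * ∫ x, g k s t x|
      ≤ ∫ X, (ε * n + (ε * n)⁻¹ * (Z k n s t X - n * ∫ x, g k s t x) ^ 2) :=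
        integral_mono hint1 ((integrable_const _).add (hint2.const_mul _)) hpt
    _ = ε * n + (ε * n)⁻¹ * ∫ X, (Z k n s t X - n * ∫ x, g k s t x) ^ 2 := by
        rw [integral_add (integrable_const _) (hint2.const_mul _),
          integral_const, probReal_univ, one_smul]
        congr 1
        exact integral_const_mul _ _
    _ ≤ ε * n + (ε * n)⁻¹ * (n * (k + 1) ^ 2) := by
        gcongr
        exact variance_Z k n s t
    _ = ε * n + (k + 1) ^ 2 / ε := by
        field_simp

/-- The values of the expectations on the grid. -/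
lemma grid_value (k M j : ℕ) (hM : 0 < M) (hj : j ≤ M) :
    ∫ x, g k (((j : ℝ) + 1) / M) ((j : ℝ) / M) x ≤ 1 / (k + 1) + 2 / M := by
  have hM' : (0 : ℝ) < M := by exact_mod_cast hM
  have hj' : (j : ℝ) ≤ M := by exact_mod_cast hj
  have hj0 : (0 : ℝ) ≤ j := Nat.cast_nonneg j
  have hk : (0 : ℝ) ≤ k := Nat.cast_nonneg k
  have hs0 : 0 ≤ (j : ℝ) / M := by positivity
  have hs1 : (j : ℝ) / M ≤ 1 := by rw [div_le_one hM']; exact hj'
  rw [integral_g, integral_gB hs0 hs1]
  set s : ℝ := (j : ℝ) / M with hs
  have hadd : ((j : ℝ) + 1) / M = s + 1 / M := by rw [hs]; ring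
  have hmax : 2 * s - (k + 1) * s ^ 2 ≤ 1 / (k + 1) := by
    rw [le_div_iff₀ (by positivity)]
    nlinarith [sq_nonneg ((k + 1) * s - 1)]
  have h1M : 0 ≤ 1 / (M : ℝ) := by positivity
  rcases le_or_gt (((j : ℝ) + 1) / M) 1 with h | h
  · rw [integral_gA (by positivity) h, hadd]
    have : 2 / (M : ℝ) = 2 * (1 / M) := by ring
    rw [this]
    nlinarith
  · rw [integral_gA_of_one_le h.le]
    rw [hadd] at h
    have h5 : 1 - s < 1 / M := by linarith
    have h6 : 1 - 2 * s + s ^ 2 ≤ 1 / M := by nlinarith
    have : 2 / (M : ℝ) = 2 * (1 / M) := by ring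
    rw [this]
    nlinarith

lemma ae_ne : ∀ᵐ x : I × I, x.1 ≠ x.2 := by
  have hm : MeasurableSet {x : I × I | x.1 ≠ x.2}ᶜ := by
    have : {x : I × I | x.1 ≠ x.2}ᶜ = {x | x.1 = x.2} := by
      ext x
      simp
    rw [this]
    exact measurableSet_eq_fun measurable_fst measurable_snd
  rw [ae_iff]
  change volume ({x : I × I | x.1 ≠ x.2}ᶜ) = 0
  rw [Measure.volume_eq_prod, Measure.prod_apply hm]
  have : ∀ x : I, (volume : Measure I) (Prod.mk x ⁻¹' {x : I × I | x.1 ≠ x.2}ᶜ) = 0 := by
    intro x
    have : Prod.mk x ⁻¹' {x : I × I | x.1 ≠ x.2}ᶜ = {x} := by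
      ext y
      simp [eq_comm]
    rw [this]
    exact measure_singleton x
  rw [lintegral_congr this, lintegral_zero]

lemma ae_good (n : ℕ) : ∀ᵐ X : Fin n → I × I, ∀ i, left (X i) < right (X i) := by
  rw [ae_all_iff]
  intro i
  have h := (measurePreserving_eval (fun _ : Fin n => (volume : Measure (I × I))) i).quasiMeasurePreserving.ae
    ae_ne
  filter_upwards [h] with X hX
  exact min_lt_max.2 hX

lemma KW_le_grid (k n M : ℕ) (hM : 0 < M) (X : Fin n → I × I)
    (hX : ∀ i, left (X i) < right (X i)) :
    KW k n X ≤ n * (1 / (k + 1) + 2 / M) + ∑ j ∈ Finset.range (M + 1),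
      |Z k n (((j : ℝ) + 1) / M) ((j : ℝ) / M) X -
        n * ∫ x, g k (((j : ℝ) + 1) / M) ((j : ℝ) / M) x| := by
  have hM' : (0 : ℝ) < M := by exact_mod_cast hM
  set R : ℝ := n * (1 / (k + 1) + 2 / M) + ∑ j ∈ Finset.range (M + 1),
      |Z k n (((j : ℝ) + 1) / M) ((j : ℝ) / M) X -
        n * ∫ x, g k (((j : ℝ) + 1) / M) ((j : ℝ) / M) x| with hR
  have hR0 : 0 ≤ R := by
    rw [hR]
    have : 0 ≤ ∑ j ∈ Finset.range (M + 1),
      |Z k n (((j : ℝ) + 1) / M) ((j : ℝ) / M) X -
        n * ∫ x, g k (((j : ℝ) + 1) / M) ((j : ℝ) / M) x| := Finset.sum_nonneg fun _ _ => abs_nonneg _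
    have h2 : (0 : ℝ) ≤ n * (1 / (k + 1) + 2 / M) := by positivity
    linarith
  have h1 := kwidth_le_sup (fun i => left (X i)) (fun i => right (X i)) hX k
  have h2 : Finset.univ.sup (fun v => cA (fun i => left (X i)) (left (X v)) -
      k * cA (fun i => right (X i)) (left (X v))) ≤ ⌊R⌋₊ := by
    refine Finset.sup_le fun v _ => ?_
    refine Nat.le_floor ?_
    set t : I := left (X v) with ht
    set j : ℕ := ⌊(M : ℝ) * t⌋₊ with hj
    have ht0 : (0 : ℝ) ≤ t := t.2.1
    have ht1 : (t : ℝ) ≤ 1 := t.2.2
    have hj1 : (j : ℝ) ≤ M * t := Nat.floor_le (by positivity)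
    have hj2 : (M : ℝ) * t < j + 1 := Nat.lt_floor_add_one _
    have hjM : j ≤ M := by
      have : (j : ℝ) ≤ M := by nlinarith
      exact_mod_cast this
    have e1 : (cA (fun i => left (X i)) t : ℝ) ≤ ∑ i, gA (((j : ℝ) + 1) / M) (X i) := by
      rw [cA_left]
      refine Finset.sum_le_sum fun i _ => ?_
      unfold gA
      split_ifs with h3 h4
      · exact le_rfl
      · exfalso
        apply h4
        refine h3.trans ?_
        rw [le_div_iff₀ hM']
        linarith
      · norm_num
      · exact le_rfl
    have e2 : ∑ i, gB ((j : ℝ) / M) (X i) ≤ (cA (fun i => right (X i)) t : ℝ) := by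
      rw [cA_right]
      refine Finset.sum_le_sum fun i _ => ?_
      unfold gB
      split_ifs with h3 h4
      · exact le_rfl
      · exfalso
        apply h4
        refine h3.trans ?_
        rw [div_le_iff₀ hM']
        linarith
      · norm_num
      · exact le_rfl
    have e3 : ((cA (fun i => left (X i)) t - k * cA (fun i => right (X i)) t : ℕ) : ℝ) ≤
        max 0 (Z k n (((j : ℝ) + 1) / M) ((j : ℝ) / M) X) := by
      rcases le_total (cA (fun i => left (X i)) t) (k * cA (fun i => right (X i)) t) with h | h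
      · rw [Nat.sub_eq_zero_of_le h]
        simp
      · rw [Nat.cast_sub h]
        push_cast
        refine le_max_of_le_right ?_
        have : Z k n (((j : ℝ) + 1) / M) ((j : ℝ) / M) X =
            ∑ i, gA (((j : ℝ) + 1) / M) (X i) - k * ∑ i, gB ((j : ℝ) / M) (X i) := by
          unfold Z g
          rw [Finset.sum_sub_distrib, Finset.mul_sum]
        rw [this]
        have hk : (0 : ℝ) ≤ k := Nat.cast_nonneg k
        have := mul_le_mul_of_nonneg_left e2 hk
        linarith
    refine e3.trans (max_le hR0 ?_)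
    have e4 := grid_value k M j hM hjM
    have e5 : |Z k n (((j : ℝ) + 1) / M) ((j : ℝ) / M) X -
        n * ∫ x, g k (((j : ℝ) + 1) / M) ((j : ℝ) / M) x| ≤ ∑ j ∈ Finset.range (M + 1),
      |Z k n (((j : ℝ) + 1) / M) ((j : ℝ) / M) X -
        n * ∫ x, g k (((j : ℝ) + 1) / M) ((j : ℝ) / M) x| :=
      Finset.single_le_sum (f := fun j : ℕ => |Z k n (((j : ℝ) + 1) / M) ((j : ℝ) / M) X -
        n * ∫ x, g k (((j : ℝ) + 1) / M) ((j : ℝ) / M) x|) (fun _ _ => abs_nonneg _)
        (Finset.mem_range.2 (by omega))
    have e6 := le_abs_self (Z k n (((j : ℝ) + 1) / M) ((j : ℝ) / M) X -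
        n * ∫ x, g k (((j : ℝ) + 1) / M) ((j : ℝ) / M) x)
    have hn : (0 : ℝ) ≤ n := Nat.cast_nonneg n
    have e7 := mul_le_mul_of_nonneg_left e4 hn
    rw [hR]
    linarith
  have h3 : (kwidth (fun i j => right (X i) ≤ left (X j)) k : ℝ) ≤ (⌊R⌋₊ : ℝ) := by
    exact_mod_cast h1.trans h2
  exact h3.trans (Nat.floor_le hR0)

lemma expWidth_le (k n M : ℕ) (hn : 0 < n) (hM : 0 < M) (ε : ℝ) (hε : 0 < ε) :
    expWidth k n ≤ n * (1 / (k + 1) + 2 / M) + (M + 1) * (ε * n + (k + 1) ^ 2 / ε) := by
  have hint : ∀ j ∈ Finset.range (M + 1), Integrable (fun X : Fin n → I × I =>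
      |Z k n (((j : ℝ) + 1) / M) ((j : ℝ) / M) X -
        n * ∫ x, g k (((j : ℝ) + 1) / M) ((j : ℝ) / M) x|) := fun j _ =>
    ((integrable_Z k n _ _).sub (integrable_const _)).abs
  have h1 : expWidth k n ≤ ∫ X : Fin n → I × I, (n * (1 / (k + 1) + 2 / M) +
      ∑ j ∈ Finset.range (M + 1), |Z k n (((j : ℝ) + 1) / M) ((j : ℝ) / M) X -
        n * ∫ x, g k (((j : ℝ) + 1) / M) ((j : ℝ) / M) x|) := by
    refine integral_mono_ae (integrable_KW k n)
      ((integrable_const _).add (integrable_finsetSum _ hint)) ?_
    filter_upwards [ae_good n] with X hX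
    exact KW_le_grid k n M hM X hX
  refine h1.trans ?_
  rw [integral_add (integrable_const _) (integrable_finsetSum _ hint), integral_finsetSum _ hint]
  rw [integral_const, probReal_univ, one_smul]
  gcongr
  calc ∑ j ∈ Finset.range (M + 1), ∫ X : Fin n → I × I,
      |Z k n (((j : ℝ) + 1) / M) ((j : ℝ) / M) X -
        n * ∫ x, g k (((j : ℝ) + 1) / M) ((j : ℝ) / M) x|
      ≤ ∑ _j ∈ Finset.range (M + 1), (ε * n + (k + 1) ^ 2 / ε) :=
        Finset.sum_le_sum fun j _ => integral_abs_Z k n hn _ _ ε hε
    _ = _ := by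
        rw [Finset.sum_const, Finset.card_range, nsmul_eq_mul]
        push_cast
        ring

lemma le_expWidth (k n : ℕ) : n * (1 / ((k : ℝ) + 1)) ≤ expWidth k n := by
  have hk : (0 : ℝ) ≤ k := Nat.cast_nonneg k
  have h0 : 0 ≤ 1 / ((k : ℝ) + 1) := by positivity
  have h1 : 1 / ((k : ℝ) + 1) ≤ 1 := by
    rw [div_le_one (by positivity)]
    linarith
  have h2 : ∫ X : Fin n → I × I, Z k n (1 / ((k : ℝ) + 1)) (1 / ((k : ℝ) + 1)) X ≤ expWidth k n := by
    refine integral_mono (integrable_Z k n _ _) (integrable_KW k n) ?_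
    intro X
    have := count_le (fun i => left (X i)) (fun i => right (X i)) (fun i => left_le_right _) k
      ⟨1 / ((k : ℝ) + 1), h0, h1⟩
    have h3 : (cA (fun i => left (X i)) ⟨1 / ((k : ℝ) + 1), h0, h1⟩ : ℝ) ≤
        KW k n X + k * cA (fun i => right (X i)) ⟨1 / ((k : ℝ) + 1), h0, h1⟩ := by
      unfold KW before
      exact_mod_cast this
    rw [cA_left, cA_right] at h3
    have h4 : ∑ i, gA (1 / ((k : ℝ) + 1)) (X i) ≤
        KW k n X + k * ∑ i, gB (1 / ((k : ℝ) + 1)) (X i) := h3
    change Z k n _ _ X ≤ KW k n X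
    unfold Z g
    rw [Finset.sum_sub_distrib, ← Finset.mul_sum]
    linarith
  rw [integral_Z, integral_g, integral_gA h0 h1, integral_gB h0 h1] at h2
  refine le_trans (le_of_eq ?_) h2
  congr 1
  field_simp
  ring

/-- For every `k`, the expected `k`-width of a set of `n` independent random intervals, divided
by `n`, tends to `1 / (k + 1)`. -/
theorem result (k : ℕ) :
    Tendsto (fun n : ℕ => expWidth k n / n) atTop (𝓝 (1 / ((k : ℝ) + 1))) := by
  rw [Metric.tendsto_atTop]
  intro δ hδ
  obtain ⟨M, hM⟩ := exists_nat_gt (6 / δ)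
  have hM0 : (0 : ℝ) < M := lt_trans (by positivity) hM
  have hM1 : 0 < M := by exact_mod_cast hM0
  have hM2 : 2 / (M : ℝ) < δ / 3 := by
    rw [div_lt_iff₀ hM0]
    rw [div_lt_iff₀ hδ] at hM
    linarith
  set ε : ℝ := δ / (3 * (M + 1)) with hε
  have hε0 : 0 < ε := by positivity
  have hε1 : ((M : ℝ) + 1) * ε = δ / 3 := by
    rw [hε]
    field_simp
  obtain ⟨N, hN⟩ := exists_nat_gt ((M + 1) * ((k + 1) ^ 2 / ε) / (δ / 3))
  refine ⟨N + 1, fun n hn => ?_⟩
  have hn0 : 0 < n := by omega
  have hn1 : (0 : ℝ) < n := by exact_mod_cast hn0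
  have hNn : (N : ℝ) < n := by exact_mod_cast (by omega : N < n)
  have h1 := le_expWidth k n
  have h2 := expWidth_le k n M hn0 hM1 ε hε0
  have h3 : (M + 1) * ((k + 1) ^ 2 / ε) < δ / 3 * n := by
    have := hN.trans hNn
    rw [div_lt_iff₀ (by positivity)] at this
    linarith
  rw [Real.dist_eq, abs_lt]
  constructor
  · have : 1 / ((k : ℝ) + 1) ≤ expWidth k n / n := by
      rw [le_div_iff₀ hn1]
      linarith
    linarith
  · have : expWidth k n / n < 1 / ((k : ℝ) + 1) + δ := by
      rw [div_lt_iff₀ hn1]
      have h4 : (M + 1) * (ε * n + (k + 1) ^ 2 / ε) < δ / 3 * n + δ / 3 * n := by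
        have : (M + 1) * (ε * n + (k + 1) ^ 2 / ε) = ((M + 1) * ε) * n + (M + 1) * ((k + 1) ^ 2 / ε) := by
          ring
        rw [this, hε1]
        linarith
      have h5 : n * (1 / ((k : ℝ) + 1) + 2 / M) ≤ n * (1 / ((k : ℝ) + 1)) + δ / 3 * n := by
        nlinarith
      nlinarith
    linarith

end Pool.Agent.Results.MP_6cdded_pr.KWidthLimit
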